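import Pool.Agent.H211.HY.Stm1
import Pool.Graph.R_seed8.H790R3.RB.TPQ
import Pool.Graph.R_seed8.H790R3.RB.TWR

/-!
# The critical orbits in the plane coordinate (`S_ORBS`)
-/

set_option autoImplicit false

open Topology Filter Metric Set MeasureTheory Polynomial

namespace Pool.Agent.H685.HY211

open Pool.Agent.H790R3.RB Pool.Agent.H211.HY

/-! ### The Jacobian determinant -/

theorem pol_eval_one {d : ℕ} (x : CV d) (i : Fin 2) (z : ℂ) :
    (pol x i).eval z = ∑ j : Fin (d + 1), x (i, j) * z ^ (j : ℕ) := by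
  rw [PQ.pol_eval]
  refine Finset.sum_congr rfl fun j _ => ?_
  rw [one_pow, mul_one]

theorem pol_der_eval {d : ℕ} (x : CV d) (i : Fin 2) (z : ℂ) :
    (derivative (pol x i)).eval z =
      ∑ j : Fin (d + 1), x (i, j) * (((j : ℕ) : ℂ) * z ^ ((j : ℕ) - 1)) := by
  unfold pol
  rw [derivative_sum, eval_finsetSum]
  refine Finset.sum_congr rfl fun j _ => ?_
  rw [derivative_monomial, eval_monomial]
  ring

theorem SU_one {d : ℕ} (x : CV d) (i : Fin 2) (z : ℂ) :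
    WR.SU (fun j => x (i, j)) (z, 1) = (derivative (pol x i)).eval z := by
  rw [pol_der_eval]
  unfold WR.SU
  refine Finset.sum_congr rfl fun j _ => ?_
  simp only [one_pow, mul_one]

theorem SV_one {d : ℕ} (x : CV d) (i : Fin 2) (z : ℂ) :
    WR.SV (fun j => x (i, j)) (z, 1) =
      (d : ℂ) * (pol x i).eval z - z * (derivative (pol x i)).eval z := by
  rw [pol_der_eval, pol_eval_one, Finset.mul_sum, Finset.mul_sum, ← Finset.sum_sub_distrib]
  unfold WR.SV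
  refine Finset.sum_congr rfl fun j _ => ?_
  have hj : (j : ℕ) ≤ d := Nat.lt_succ_iff.1 j.2
  simp only [one_pow, mul_one]
  rw [Nat.cast_sub hj]
  rcases Nat.eq_zero_or_pos (j : ℕ) with h | h
  · rw [h]
    simp only [Nat.cast_zero, zero_mul, mul_zero, sub_zero, pow_zero, mul_one]
    ring
  · have h1 : z ^ (j : ℕ) = z * z ^ ((j : ℕ) - 1) := by
      rw [← pow_succ']
      exact congrArg _ (by omega)
    rw [h1]
    ring

theorem wr_one {d : ℕ} (x : CV d) (z : ℂ) :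
    wr x (z, 1) = (d : ℂ) * (Wp (pol x 0) (pol x 1)).eval z := by
  rw [WR.wr_eq, SU_one, SU_one, SV_one, SV_one]
  unfold Wp
  rw [eval_sub, eval_mul, eval_mul]
  ring

theorem wr_smul {d : ℕ} (hd : 2 ≤ d) (x : CV d) (t z : ℂ) :
    wr x (t • ((z, 1) : ℂ × ℂ)) =
      t ^ (2 * d - 2) * ((d : ℂ) * (Wp (pol x 0) (pol x 1)).eval z) := by
  rw [(WR d x hd).1 t (z, 1), wr_one]

theorem hF_smul_one {d : ℕ} (x : CV d) (t z : ℂ) :
    hF x (t • ((z, 1) : ℂ × ℂ)) = t ^ d • (((pol x 0).eval z, (pol x 1).eval z) : ℂ × ℂ) := by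
  rw [hF_smul, PQ.hF_one]

theorem N2_smul (t : ℂ) (p : ℂ × ℂ) : N2 (t • p) = ‖t‖ ^ 2 * N2 p := by
  unfold N2
  simp only [Prod.smul_fst, Prod.smul_snd, smul_eq_mul, norm_mul, mul_pow]
  ring

theorem N2_one (z : ℂ) : N2 (z, 1) = 1 + ‖z‖ ^ 2 := by
  unfold N2
  simp only [norm_one, one_pow]
  ring

theorem one_add_pos (z : ℂ) : 0 < 1 + ‖z‖ ^ 2 := by positivity

/-- the spherical derivative in the plane coordinate -/
theorem sd_eq {d : ℕ} (hd : 2 ≤ d) (x : CV d) (t z : ℂ) (ht : t ≠ 0)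
    (hQ : (pol x 1).eval z ≠ 0) :
    sd x (t • ((z, 1) : ℂ × ℂ)) =
      ‖(Wp (pol x 0) (pol x 1)).eval z‖ / ‖(pol x 1).eval z‖ ^ 2 * (1 + ‖z‖ ^ 2) /
        (1 + ‖(pol x 0).eval z / (pol x 1).eval z‖ ^ 2) := by
  have h1 : (((pol x 0).eval z, (pol x 1).eval z) : ℂ × ℂ) =
      (pol x 1).eval z • (((pol x 0).eval z / (pol x 1).eval z, 1) : ℂ × ℂ) := by
    refine Prod.ext ?_ ?_
    · simp only [Prod.smul_fst, smul_eq_mul]
      rw [mul_div_cancel₀ _ hQ]
    · simp only [Prod.smul_snd, smul_eq_mul, mul_one]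
  have hd0 : (d : ℝ) ≠ 0 := by
    have : 0 < d := by omega
    positivity
  unfold sd
  rw [wr_smul hd, hF_smul_one, h1, N2_smul, N2_smul, N2_smul, N2_one, N2_one, norm_mul, norm_mul,
    norm_pow, norm_pow, Complex.norm_natCast]
  have h2 : ‖t‖ ≠ 0 := norm_ne_zero_iff.2 ht
  have h3 : ‖(pol x 1).eval z‖ ≠ 0 := norm_ne_zero_iff.2 hQ
  have h4 := (one_add_pos ((pol x 0).eval z / (pol x 1).eval z)).ne'
  have h5 : (‖t‖ ^ d) ^ 2 = ‖t‖ ^ (2 * d - 2) * ‖t‖ ^ 2 := by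
    rw [← pow_mul, ← pow_add]
    exact congrArg _ (by omega)
  rw [h5]
  have h6 : ‖t‖ ^ (2 * d - 2) ≠ 0 := pow_ne_zero _ h2
  field_simp

/-! ### One orbit -/

section orbit

variable {d : ℕ} (x : CV d) (c : ℂ)

/-- plane coordinates -/
noncomputable def xc (j : ℕ) : ℂ := (qo x c j).1 / (qo x c j).2

/-- the inverses of the derivatives -/
noncomputable def al (j : ℕ) : ℂ :=
  ∏ l ∈ Finset.range j, ((pol x 1).eval (xc x c (l + 1)) ^ 2 /
    (Wp (pol x 0) (pol x 1)).eval (xc x c (l + 1)))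

theorem qo_succ (j : ℕ) : qo x c (j + 1) = hF x (qo x c j) := by
  unfold qo
  rw [Function.iterate_succ_apply']

theorem qo_zero : qo x c 0 = (c, 1) := rfl

theorem qo_eq (h : ∀ j, (qo x c j).2 ≠ 0) (j : ℕ) :
    qo x c j = (qo x c j).2 • ((xc x c j, 1) : ℂ × ℂ) := by
  refine Prod.ext ?_ ?_
  · simp only [Prod.smul_fst, smul_eq_mul, xc]
    rw [mul_div_cancel₀ _ (h j)]
  · simp only [Prod.smul_snd, smul_eq_mul, mul_one]

theorem xc_zero : xc x c 0 = c := by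
  unfold xc
  rw [qo_zero, div_one]

theorem qo_succ_eq (h : ∀ j, (qo x c j).2 ≠ 0) (j : ℕ) :
    qo x c (j + 1) = (qo x c j).2 ^ d •
      (((pol x 0).eval (xc x c j), (pol x 1).eval (xc x c j)) : ℂ × ℂ) := by
  rw [qo_succ, ← hF_smul_one, ← qo_eq x c h j]

theorem t_succ (h : ∀ j, (qo x c j).2 ≠ 0) (j : ℕ) :
    (qo x c (j + 1)).2 = (qo x c j).2 ^ d * (pol x 1).eval (xc x c j) := by
  have := congrArg Prod.snd (qo_succ_eq x c h j)
  simpa only [Prod.smul_snd, smul_eq_mul] using this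

theorem Q_ne (h : ∀ j, (qo x c j).2 ≠ 0) (j : ℕ) : (pol x 1).eval (xc x c j) ≠ 0 := by
  intro h0
  apply h (j + 1)
  rw [t_succ x c h, h0, mul_zero]

theorem xc_succ (h : ∀ j, (qo x c j).2 ≠ 0) (j : ℕ) :
    xc x c (j + 1) = (pol x 0).eval (xc x c j) / (pol x 1).eval (xc x c j) := by
  have h1 : xc x c (j + 1) = (qo x c (j + 1)).1 / (qo x c (j + 1)).2 := rfl
  rw [h1, qo_succ_eq x c h j]
  simp only [Prod.smul_fst, Prod.smul_snd, smul_eq_mul]
  rw [mul_div_mul_left _ _ (pow_ne_zero d (h j))]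

theorem wr_qo (hd : 2 ≤ d) (h : ∀ j, (qo x c j).2 ≠ 0) (j : ℕ) :
    wr x (qo x c j) = (qo x c j).2 ^ (2 * d - 2) *
      ((d : ℂ) * (Wp (pol x 0) (pol x 1)).eval (xc x c j)) := by
  rw [← wr_smul hd, ← qo_eq x c h j]

theorem al_zero : al x c 0 = 1 := by
  unfold al
  rw [Finset.range_zero, Finset.prod_empty]

theorem al_succ (j : ℕ) : al x c (j + 1) = al x c j * ((pol x 1).eval (xc x c (j + 1)) ^ 2 /
    (Wp (pol x 0) (pol x 1)).eval (xc x c (j + 1))) := by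
  unfold al
  rw [Finset.prod_range_succ]

/-- the relation between the products and the spherical derivatives -/
theorem al_sdn (hd : 2 ≤ d) (h : ∀ j, (qo x c j).2 ≠ 0)
    (hW : ∀ j, (Wp (pol x 0) (pol x 1)).eval (xc x c (j + 1)) ≠ 0) (j : ℕ) :
    ‖al x c j‖ * (1 + ‖xc x c (j + 1)‖ ^ 2) * sdn x j (hF x (c, 1)) =
      1 + ‖xc x c 1‖ ^ 2 := by
  induction j with
  | zero =>
    rw [al_zero, norm_one, one_mul]
    unfold sdn
    rw [Finset.range_zero, Finset.prod_empty, mul_one]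
  | succ j ih =>
    have h1 : sdn x (j + 1) (hF x (c, 1)) = sdn x j (hF x (c, 1)) * sd x (qo x c (j + 1)) := by
      unfold sdn
      rw [Finset.prod_range_succ]
      have h2 : (hF x)^[j] (hF x (c, 1)) = qo x c (j + 1) := by
        unfold qo
        rw [Function.iterate_succ_apply]
      rw [h2]
    have h3 : sd x (qo x c (j + 1)) =
        ‖(Wp (pol x 0) (pol x 1)).eval (xc x c (j + 1))‖ /
          ‖(pol x 1).eval (xc x c (j + 1))‖ ^ 2 * (1 + ‖xc x c (j + 1)‖ ^ 2) /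
            (1 + ‖xc x c (j + 1 + 1)‖ ^ 2) := by
      rw [xc_succ x c h (j + 1), ← sd_eq hd x _ _ (h (j + 1)) (Q_ne x c h (j + 1)),
        ← qo_eq x c h (j + 1)]
    rw [← ih, h1, h3, al_succ, norm_mul, norm_div, norm_pow]
    have h4 : ‖(Wp (pol x 0) (pol x 1)).eval (xc x c (j + 1))‖ ≠ 0 := norm_ne_zero_iff.2 (hW j)
    have h5 : ‖(pol x 1).eval (xc x c (j + 1))‖ ≠ 0 := norm_ne_zero_iff.2 (Q_ne x c h (j + 1))
    have h6 := (one_add_pos (xc x c (j + 1 + 1))).ne'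
    field_simp

theorem cr_qo (h : ∀ j, (qo x c j).2 ≠ 0) (b : CV d) (j : ℕ) :
    cr (hF b (qo x c j)) (hF x (qo x c j)) =
      (qo x c j).2 ^ (2 * d) * (Up x b).eval (xc x c j) := by
  have h1 : hF b (qo x c j) = (qo x c j).2 ^ d •
      (((pol b 0).eval (xc x c j), (pol b 1).eval (xc x c j)) : ℂ × ℂ) := by
    rw [← hF_smul_one, ← qo_eq x c h j]
  have h2 : hF x (qo x c j) = (qo x c j).2 ^ d •
      (((pol x 0).eval (xc x c j), (pol x 1).eval (xc x c j)) : ℂ × ℂ) := by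
    rw [← hF_smul_one, ← qo_eq x c h j]
  rw [h1, h2, cr_smul_left, cr_smul_right]
  unfold cr Up
  rw [eval_sub, eval_mul, eval_mul, two_mul, pow_add]
  ring

/-- the product of the homogeneous derivatives -/
theorem lam_eq (hd : 2 ≤ d) (h : ∀ j, (qo x c j).2 ≠ 0)
    (hW : ∀ j, (Wp (pol x 0) (pol x 1)).eval (xc x c (j + 1)) ≠ 0) (j : ℕ) :
    (qo x c (j + 1)).2 ^ (2 * d) * (Wp (pol x 0) (pol x 1)).eval (xc x c (j + 1)) =
      (qo x c 1).2 ^ 2 * al x c j * Lam x c (j + 1) := by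
  have hd0 : (d : ℂ) ≠ 0 := by
    have : d ≠ 0 := by omega
    exact_mod_cast this
  have hL : ∀ j, Lam x c (j + 1) = Lam x c j * ((qo x c (j + 1)).2 ^ (2 * d - 2) *
      (Wp (pol x 0) (pol x 1)).eval (xc x c (j + 1))) := by
    intro j
    unfold Lam
    rw [Finset.prod_range_succ, wr_qo x c hd h (j + 1)]
    field_simp
  have hL0 : Lam x c 0 = 1 := by
    unfold Lam
    rw [Finset.range_zero, Finset.prod_empty]
  have h2d : ∀ t : ℂ, t ^ (2 * d) = t ^ 2 * t ^ (2 * d - 2) := by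
    intro t
    rw [← pow_add]
    exact congrArg _ (by omega)
  induction j with
  | zero =>
    rw [hL 0, hL0, al_zero, h2d]
    ring
  | succ j ih =>
    rw [hL (j + 1), al_succ, h2d]
    have h1 : (qo x c (j + 1 + 1)).2 ^ 2 = (qo x c (j + 1)).2 ^ (2 * d) *
        (pol x 1).eval (xc x c (j + 1)) ^ 2 := by
      rw [t_succ x c h (j + 1), mul_pow, ← pow_mul, mul_comm d 2]
    have h3 : (qo x c (j + 1)).2 ^ (2 * d) =
        (qo x c 1).2 ^ 2 * al x c j * Lam x c (j + 1) /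
          (Wp (pol x 0) (pol x 1)).eval (xc x c (j + 1)) := by
      rw [← ih, mul_div_cancel_right₀ _ (hW j)]
    rw [h1, h3]
    ring

theorem lam_ne (hd : 2 ≤ d) (h : ∀ j, (qo x c j).2 ≠ 0)
    (hW : ∀ j, (Wp (pol x 0) (pol x 1)).eval (xc x c (j + 1)) ≠ 0) (j : ℕ) :
    Lam x c j ≠ 0 := by
  have hd0 : (d : ℂ) ≠ 0 := by
    have : d ≠ 0 := by omega
    exact_mod_cast this
  unfold Lam
  refine Finset.prod_ne_zero_iff.2 fun l _ => ?_
  rw [wr_qo x c hd h (l + 1)]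
  exact div_ne_zero (mul_ne_zero (pow_ne_zero _ (h (l + 1))) (mul_ne_zero hd0 (hW l))) hd0

theorem hst_zero (h : ∀ j, (qo x c j).2 ≠ 0) (b : CV d) :
    hst x c b 0 = (qo x c 1).2 ^ 2 * ((Up x b).eval c / (pol x 1).eval c ^ 2) := by
  have h1 : (qo x c 1).2 = (pol x 1).eval c := by
    have := t_succ x c h 0
    rw [zero_add, xc_zero, qo_zero, one_pow, one_mul] at this
    exact this
  have h2 := Q_ne x c h 0
  rw [xc_zero] at h2
  have hL0 : Lam x c 0 = 1 := by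
    unfold Lam
    rw [Finset.range_zero, Finset.prod_empty]
  unfold hst
  rw [cr_qo x c h, hL0, h1, xc_zero, qo_zero, one_pow, one_mul, div_one,
    mul_div_cancel₀ _ (pow_ne_zero 2 h2)]

theorem hst_succ (hd : 2 ≤ d) (h : ∀ j, (qo x c j).2 ≠ 0)
    (hW : ∀ j, (Wp (pol x 0) (pol x 1)).eval (xc x c (j + 1)) ≠ 0) (b : CV d) (j : ℕ) :
    hst x c b (j + 1) = (qo x c 1).2 ^ 2 * ((Up x b).eval (xc x c (j + 1)) /
      (Wp (pol x 0) (pol x 1)).eval (xc x c (j + 1)) * al x c j) := by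
  have h1 := lam_eq x c hd h hW j
  have h2 := lam_ne x c hd h hW (j + 1)
  have h3 := hW j
  unfold hst
  rw [cr_qo x c h]
  rw [div_eq_iff h2]
  rw [div_mul_eq_mul_div, mul_div_assoc', div_mul_eq_mul_div, eq_div_iff h3]
  linear_combination ((Up x b).eval (xc x c (j + 1))) * h1

end orbit

/-- **The orbits in the plane.** -/
theorem t_ORBS (_h1 : S_CHO) (h2 : S_FUNC) : S_ORBS := by
  intro d k x c m hd nd ce nrm fac
  have hd0 : (d : ℂ) ≠ 0 := by
    have : d ≠ 0 := by omega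
    exact_mod_cast this
  have hne : ∀ i, ((c i, 1) : ℂ × ℂ) ≠ 0 := by
    intro i h
    have := congrArg Prod.snd h
    simp at this
  have hwr : ∀ i, wr x (c i, 1) = 0 := by
    intro i
    rw [fac.fac, Finset.prod_eq_zero (Finset.mem_univ i), mul_zero]
    rw [sub_self, zero_pow]
    have := fac.pos i
    omega
  have hq : ∀ i j, (qo x (c i) j).2 ≠ 0 := fun i j => nrm.2 (c i, 1) (hne i) (hwr i) j
  choose C hC M hM hgr using fun i => ce (c i, 1) (hne i) (hwr i)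
  have hsd : ∀ i n, 0 < sdn x n (hF x (c i, 1)) := fun i n =>
    lt_of_lt_of_le (mul_pos (hC i) (pow_pos (lt_trans one_pos (hM i)) n)) (hgr i n)
  have hW : ∀ i j, (Wp (pol x 0) (pol x 1)).eval (xc x (c i) (j + 1)) ≠ 0 := by
    intro i j h0
    have h3 := hsd i (j + 1)
    have h4 : sdn x (j + 1) (hF x (c i, 1)) = 0 := by
      unfold sdn
      rw [Finset.prod_range_succ]
      have h5 : (hF x)^[j] (hF x (c i, 1)) = qo x (c i) (j + 1) := by
        unfold qo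
        rw [Function.iterate_succ_apply]
      rw [h5]
      unfold sd
      rw [wr_qo x (c i) hd (hq i) (j + 1), h0, mul_zero, mul_zero, norm_zero, zero_mul, zero_div,
        mul_zero]
    exact h3.ne' h4
  -- a common rate
  obtain ⟨μ, hμ0, hμ1, hμ⟩ : ∃ μ : ℝ, 0 < μ ∧ μ < 1 ∧ ∀ i, (M i)⁻¹ ≤ μ := by
    have h3 : ∀ᶠ μ : ℝ in 𝓝[<] 1, ∀ i, (M i)⁻¹ ≤ μ := by
      refine Filter.eventually_all.2 fun i => ?_
      have h4 : (M i)⁻¹ < 1 := inv_lt_one_of_one_lt₀ (hM i)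
      filter_upwards [Ioo_mem_nhdsLT h4] with μ hμ using hμ.1.le
    have h5 : ∀ᶠ μ : ℝ in 𝓝[<] 1, 0 < μ ∧ μ < 1 := by
      filter_upwards [Ioo_mem_nhdsLT (zero_lt_one (α := ℝ))] with μ hμ using hμ
    obtain ⟨μ, h6, h7⟩ := (h3.and h5).exists
    exact ⟨μ, h7.1, h7.2, h6⟩
  refine ⟨fun i j => xc x (c i) (j + 1), fun i j => al x (c i) j,
    ∑ i, (1 + ‖xc x (c i) 1‖ ^ 2) / C i, μ, ?_, ?_⟩
  · refine ⟨hd, (PQ.part1 (by omega) x nd).1, (PQ.part1 (by omega) x nd).2, fac.inj, fac.pos,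
      fac.deg, ?_, ?_, ?_, ?_, ?_, hW, fun i => al_zero x (c i), fun i j => al_succ x (c i) j,
      hμ0, hμ1, ?_⟩
    · refine ⟨wr x (1, 0) / d, div_ne_zero nrm.1 hd0, ?_⟩
      refine Polynomial.funext fun z => ?_
      have h3 := fac.fac z
      rw [wr_one] at h3
      rw [eval_mul, eval_C, eval_prod]
      simp only [eval_pow, eval_sub, eval_X, eval_C]
      rw [div_mul_eq_mul_div, ← h3, mul_div_cancel_left₀ _ hd0]
    · intro i
      have := Q_ne x (c i) (hq i) 0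
      rwa [xc_zero] at this
    · intro i
      have := xc_succ x (c i) (hq i) 0
      rwa [xc_zero] at this
    · exact fun i j => xc_succ x (c i) (hq i) (j + 1)
    · exact fun i j => Q_ne x (c i) (hq i) (j + 1)
    · intro i j
      have h3 := al_sdn x (c i) hd (hq i) (hW i) j
      have h4 := hgr i j
      have hMp : 0 < M i ^ j := pow_pos (lt_trans one_pos (hM i)) j
      have h5 : ‖al x (c i) j‖ * (1 + ‖xc x (c i) (j + 1)‖ ^ 2) * (C i * M i ^ j) ≤
          1 + ‖xc x (c i) 1‖ ^ 2 := by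
        rw [← h3]
        exact mul_le_mul_of_nonneg_left h4 (by positivity)
      have h6 : ‖al x (c i) j‖ * (1 + ‖xc x (c i) (j + 1)‖ ^ 2) ≤
          (1 + ‖xc x (c i) 1‖ ^ 2) / (C i * M i ^ j) :=
        (le_div_iff₀ (mul_pos (hC i) hMp)).2 h5
      have h7 : (1 + ‖xc x (c i) 1‖ ^ 2) / (C i * M i ^ j) =
          (1 + ‖xc x (c i) 1‖ ^ 2) / C i * (M i)⁻¹ ^ j := by
        rw [← div_div, inv_pow, div_eq_mul_inv (_ / _)]
      have h8 : (M i)⁻¹ ^ j ≤ μ ^ j :=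
        pow_le_pow_left₀ (inv_nonneg.2 (lt_trans one_pos (hM i)).le) (hμ i) j
      have h9 : (1 + ‖xc x (c i) 1‖ ^ 2) / C i ≤ ∑ i, (1 + ‖xc x (c i) 1‖ ^ 2) / C i :=
        Finset.single_le_sum (f := fun i => (1 + ‖xc x (c i) 1‖ ^ 2) / C i)
          (fun l _ => div_nonneg (one_add_pos _).le (hC l).le) (Finset.mem_univ i)
      have h10 : 0 ≤ (1 + ‖xc x (c i) 1‖ ^ 2) / C i := div_nonneg (one_add_pos _).le (hC i).le
      calc ‖al x (c i) j‖ * (1 + ‖xc x (c i) (j + 1)‖ ^ 2)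
          ≤ (1 + ‖xc x (c i) 1‖ ^ 2) / C i * (M i)⁻¹ ^ j := h6.trans h7.le
        _ ≤ (∑ i, (1 + ‖xc x (c i) 1‖ ^ 2) / C i) * μ ^ j :=
            mul_le_mul h9 h8 (by have := (lt_trans one_pos (hM i)).le; positivity)
              (h10.trans h9)
  · intro i b
    have hs := (h2 d k x (c i) hd nd ce (hwr i)).1 b
    have h1 : (qo x (c i) 1).2 = (pol x 1).eval (c i) := by
      have := t_succ x (c i) (hq i) 0
      rw [zero_add, xc_zero, qo_zero, one_pow, one_mul] at this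
      exact this
    unfold HS WF
    rw [hs.tsum_eq_zero_add, hst_zero x (c i) (hq i) b]
    simp only [hst_succ x (c i) hd (hq i) (hW i) b]
    rw [tsum_mul_left, ← mul_add, h1]

end Pool.Agent.H685.HY211
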